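import Pool.Agent.Q158.BoxF

/-!
# The asymptotic order of the logarithm of the number of antichains of `L(n,n)`
-/

set_option autoImplicit false

namespace Pool.Agent.Results.MP_269158_co.LogOrder

open Q158.YoungBox

/-- `log₂ A(n)` has the order of the largest antichain `M(n)`, and the order of
`(2n choose n) / n^(3/2)`. -/
theorem result : ∃ c C : ℝ, 0 < c ∧ 0 < C ∧ ∃ n₀ : ℕ, ∀ n ≥ n₀,
    (M n : ℝ) ≤ Real.logb 2 (A n) ∧ Real.logb 2 (A n) ≤ C * M n ∧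
    c * ((n : ℝ) ^ (-(3 / 2) : ℝ) * ((2 * n).choose n : ℝ)) ≤ Real.logb 2 (A n) ∧
    Real.logb 2 (A n) ≤ C * ((n : ℝ) ^ (-(3 / 2) : ℝ) * ((2 * n).choose n : ℝ)) :=
  Q158.Box.main

end Pool.Agent.Results.MP_269158_co.LogOrder
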